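import Pool.Agent.J6H25.AJ.SConv

/-!
# MP_386e47_ag: the kernel of the `p`-adic étale Abel-Jacobi map on the powers of a variety

Let `A` be a theory of cycles on a class of smooth proper varieties and `J` a tensor ideal of
numerically trivial classes: `J(Y) ⊆ A(Y)` consists of numerically trivial classes and is stable
under pull-backs, push-forwards and products with arbitrary classes. Example (the problem): the Chow
groups with rational coefficients over a number field and `J(Y) = ker AJ_p`, in all codimensions.
Let `ρ(Y)` be the dimension of `A(Y)` modulo numerical equivalence. No finiteness of `A(Y)` or `J(Y)`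
is assumed.

* For all `Y`, `Z`: `J(Y) = 0` or `dim J(Y × Z) ≥ ρ(Z)`.
* For all `X`: either `J(Y) = 0` for all `Y` dominated by powers of `X`, or there is `c` with
  `ρ(X^n) ≤ c dim J(X^n)` for all large `n`.
* For all `X`: `dim A(X^n) / ρ(X^n)` has a limit `N`, an integer or infinity; if `N` is finite then
  homological and numerical equivalence agree on the powers of `X`; and if they agree then
  `dim J(X^n) / ρ(X^n)` has a limit `i`, an integer or infinity, `i + 1 ≤ N`, and `i = 0` if and
  only if `J(Y) = 0` for all `Y` dominated by powers of `X`.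
-/

set_option autoImplicit false

open Filter Topology
open Pool.Agent.H914 Pool.Agent.H914.VarClass Pool.Agent.Y133.Half Pool.Agent.N132.IXS
  Pool.Agent.J6H25.AJS

namespace Pool.Agent.Results.MP_386e47_ag.KernelOnPowers

universe u v w

theorem result {k : Type u} [Field k] {𝒱 : VarClass k} {ops : CycleOps 𝒱}
    {W : WeilCohomology.{u, v} ops} (C : CycleTheory.{u, v, w} W) (J : Family C.toChowTheory)
    (hJ : J.IsTensorIdeal) :
    (∀ Y Z, J.Vanishes Y ∨ C.numRank Z ≤ J.dim (Y.prod Z)) ∧
    ∀ X, (J.VanishesBelow X ∨ J.IsLarge X) ∧
      ∃ N : ℕ∞, Tendsto (fun n => C.ratio (pw X n)) atTop (𝓝 N) ∧ (N ≠ ⊤ → HomEqNum C X) ∧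
        (HomEqNum C X → J.IndexLaw X N) :=
  final C J hJ

end Pool.Agent.Results.MP_386e47_ag.KernelOnPowers
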