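import Pool.Agent.J6H25.MOD.SConv

/-!
# MP_386e47_ag: the kernel of the `p`-adic étale Abel-Jacobi map on the products of an arbitrary
motive with the powers of a variety

Let `A` be a theory of cycles on a class of smooth proper varieties and `J` a tensor ideal of
numerically trivial classes: `J(Y) ⊆ A(Y)` consists of numerically trivial classes and is stable
under pull-backs, push-forwards and products with arbitrary classes. Example (the problem): the Chow
groups with rational coefficients over a number field and `J(Y) = ker AJ_p`, in all codimensions.
Let `ρ(Z)` be the dimension of `A(Z)` modulo numerical equivalence. Let `Y` be any variety of the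
class and `e` a correspondence from `Y` to itself, for example an idempotent one; then `(Y, e)` is a
motive, and `J_e(Z) = {x ∈ J(Y × Z) | e ∘ x = x}` is the part of `J` on its dual times `h(Z)`, in all
Tate twists. Nothing is assumed about `Y` and `e`, and no finiteness of `A(Z)` or `J(Z)` is assumed.

* For all `P`, `Z`: `J_e(P) = 0` or `dim J_e(P × Z) ≥ ρ(Z)`.
* For all `X`: either `J_e(Z) = 0` for all `Z` dominated by powers of `X`, or there is `c` with
  `ρ(X^n) ≤ c dim J_e(X^n)` for all large `n`.
* Let homological and numerical equivalence agree on the powers of `X` (for example abelian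
  varieties and products of curves). Then `dim J_e(X^n) / ρ(X^n)` has a limit `i`, an integer or
  infinity, and `i = 0` if and only if `J_e(Z) = 0` for all `Z` dominated by powers of `X`.
-/

set_option autoImplicit false

open Filter Topology
open Pool.Agent.H914 Pool.Agent.H914.VarClass Pool.Agent.H914.VarClass.Obj
  Pool.Agent.Y133.Half Pool.Agent.N132.IXS Pool.Agent.J6H25.AJS

namespace Pool.Agent.Results.MP_386e47_ag.KernelOnTwists

universe u v w

theorem result {k : Type u} [Field k] {𝒱 : VarClass k} {ops : CycleOps 𝒱}
    {W : WeilCohomology.{u, v} ops} (C : CycleTheory.{u, v, w} W) (J : Family C.toChowTheory)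
    (hJ : J.IsTensorIdeal) {Y : 𝒱.Obj} (e : C.A (Y.prod Y)) :
    (∀ P Z, J.PartVanishes e P ∨ C.numRank Z ≤ J.partDim e (P.prod Z)) ∧
    ∀ X, (J.PartVanishesBelow e X ∨ J.PartIsLarge e X) ∧
      (HomEqNum C X → J.PartIndexLaw e X) :=
  final_part C J hJ e

end Pool.Agent.Results.MP_386e47_ag.KernelOnTwists
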